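import Pool.Agent.Q299.TD.Reached

/-!
MP_4d1008_ag: resolution of singularities of integral schemes of finite type over `ℤ`, of arbitrary
dimension, along all valuations in a class which is closed under composition and under towers
without defect.

Let `X` be an integral scheme of finite type over `ℤ`, and let `V` be a valuation ring of the
function field `K` of `X` which is centred on `X`. Let `IsReached ℤ` be the smallest class of
valuation rings `V` of fields `K` which contains

* the trivial valuations, the discrete valuations of arbitrary finite rank (more generally the
  finite composites of discrete and divergent valuations), the divergent valuations, and the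
  valuations which are log uniformizable on all finitely generated rings in `V` with fraction field
  `K` (by Cossart and Piltant all valuations if the absolute dimension of `K` is at most `3`);

and which is closed under

* composition: `V` is the composite of `V₁` and a valuation ring `W` of the residue field of `V₁`,
  the class contains `V₁` and `W ∩ F` for every finitely generated field `F` in the residue field of
  `V₁`;
* towers without defect: `K` is reached from a finitely generated subfield `E` by finitely many
  steps of the following kinds, and the class contains `V ∩ E`: `L ⊂ L(t)` with `t` transcendental,
  such that the value of every polynomial in `t` is determined by a defectless key polynomial;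
  finite extensions `L ⊂ L'` without defect.

Let `V` be in the class and let `Spec A` be an affine neighbourhood of the centre of `V` on `X`.
Then for every closed subset `D` and every blowing-up `X₀` of `Spec A` there is a blowing-up `X'` of
`Spec A` which factors through `X₀`, is regular at the centre of `V`, and such that the preimage of
`D` and of the centre of the blowing-up is a divisor with simple normal crossings there. This covers,
for example, all discrete valuations of finite rank of `K`. (The starting result
`KeyPolynomialTowers` has one tower, over a Dedekind ring or a field, or over a base for which
log uniformization is assumed.)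
-/

set_option autoImplicit false

universe u

namespace Pool.Agent.Results.MP_4d1008_ag.CompositesAndTowers

open Pool.Agent.Q299.TD
open Pool.Agent.Results.MP_5b7a2c_ag.KeyPolynomialTowers (IsLogUniformizable)
open Pool.Agent.Results.MP_5b7a2c_ag.DiscreteValuations (IsBaseRing adjoined)

/-- The integers, in any universe. -/
abbrev Z : Type u := ULift.{u} ℤ

/-- The map from the integers. -/
def fromZ (K : Type u) [Field K] : Z.{u} →+* K :=
  (Int.castRingHom K).comp (ULift.ringEquiv : Z.{u} ≃+* ℤ).toRingHom

lemma fromZ_range (K : Type u) [Field K] : (fromZ K).range = (⊥ : Subring K) := by
  apply le_antisymm
  · rintro _ ⟨n, rfl⟩
    exact intCast_mem _ _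
  · exact bot_le

lemma adjoined_eq (K : Type u) [Field K] (T : Set K) :
    adjoined (fromZ K) T = Subring.closure T := by
  unfold adjoined
  rw [fromZ_range, Subring.closure_union, Subring.closure_eq, bot_sup_eq]

lemma isBaseRing_Z : IsBaseRing Z.{u} := by
  have h0 : IsPrincipalIdealRing Z.{u} :=
    IsPrincipalIdealRing.of_surjective (ULift.ringEquiv : Z.{u} ≃+* ℤ).symm.toRingHom
      (ULift.ringEquiv : Z.{u} ≃+* ℤ).symm.surjective
  have hd : IsDomain Z.{u} := (ULift.ringEquiv : Z.{u} ≃+* ℤ).toMulEquiv.isDomain ℤ
  have h1 : IsDedekindDomain Z.{u} := inferInstance
  have h2 : CharZero Z.{u} := (ULift.ringEquiv : Z.{u} ≃+* ℤ).toRingHom.charZero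
  exact Pool.Agent.Results.MP_5b7a2c_ag.DiscreteValuations.isBaseRing_of_isDedekindDomain

/-- Let `K` be a field with a valuation ring `V`, of arbitrary rank and (mixed) characteristic. Let
`V` be in the class `IsReached ℤ`, that is, `V` is obtained from trivial, discrete, divergent, or
log uniformizable valuations by composition and by towers of transcendental steps without limit key
polynomials and finite extensions without defect. Let `A ⊆ V` be a finitely generated ring with
fraction field `K`, that is, an affine open subset `Spec A` of an integral scheme of finite type
over `ℤ` with function field `K` which contains the centre of `V`. Then `V` is log uniformizable on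
`Spec A`: for every closed subset `V(D)` of `Spec A` and for every blowing-up `X₀` of `Spec A` there
is a blowing-up of `Spec A` which factors through `X₀` and is a log resolution of singularities of
`(Spec A, V(D))` along `V`. -/
theorem result {K : Type u} [Field K] (V : ValuationSubring K)
    (hV : IsReached Z.{u} (fromZ K) V) (G : Set K) (hG : G.Finite) (A : Subring K)
    (hAG : A = Subring.closure G) (hA : IsModel V A) : IsLogUniformizable V A := by
  rw [← adjoined_eq] at hAG
  subst hAG
  exact logUnif_of_isReached isBaseRing_Z.hj (fromZ K) V hV G hG hA

end Pool.Agent.Results.MP_4d1008_ag.CompositesAndTowers
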