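import Pool.Agent.H920R2.Cw8
import Pool.Agent.W559.Wr.All

/-!
MP_4d1008_ag: regular proper models over `ℤ` of the quotients of products of curves over finite
fields of characteristic `p` by automorphisms of order `p` which preserve the factors, and of all
schemes which are obtained from these and from smooth projective varieties by products and by
quotients of powers by permutation groups.
-/

set_option autoImplicit false

open AlgebraicGeometry CategoryTheory TensorProduct

namespace Pool.Agent.Results.MP_4d1008_ag.CurveProductQuotients

/-- The field extension `K` of `k` is the function field of a smooth projective variety over `k`: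
there are nonzero elements `z 0, …, z l` (homogeneous coordinates) whose ratios generate `K` and
such that every algebra `k[z 0 / z i, …, z l / z i]` is smooth over `k`. -/
def HasSmoothProjectiveModel (k K : Type) [Field k] [Field K] [Algebra k K] : Prop :=
  ∃ (l : ℕ) (z : Fin (l + 1) → K), (∀ i, z i ≠ 0) ∧
    (∀ i, Algebra.Smooth k (Algebra.adjoin k (Set.range fun j => z j / z i))) ∧
    IntermediateField.adjoin k (Set.range fun j => z j / z 0) = ⊤

/-- The linear map from the tensor product of the `K i` to `L` which maps `⨂ x i` to the product of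
the `e i (x i)`. -/
noncomputable def mulMap {k L : Type} [Field k] [Field L] [Algebra k L] {ι : Type} [Fintype ι]
    {K : ι → Type} [∀ i, Field (K i)] [∀ i, Algebra k (K i)] (e : ∀ i, K i →ₐ[k] L) :
    (⨂[k] i, K i) →ₗ[k] L :=
  PiTensorProduct.lift ((MultilinearMap.mkPiAlgebra k ι L).compLinearMap
    fun i => (e i).toLinearMap)

/-- The automorphisms of `L` over `k` which permute the copies `e i (K)` of `K` by an element of
the permutation group `P`: `σ ∘ e i = e (g i)` for some `g` in `P`. -/
def permutations {k K L : Type} [Field k] [Field K] [Algebra k K] [Field L] [Algebra k L]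
    {ι : Type} (e : ι → K →ₐ[k] L) (P : Subgroup (Equiv.Perm ι)) : Subgroup (L ≃ₐ[k] L) where
  carrier := {σ | ∃ g ∈ P, ∀ i x, σ (e i x) = e (g i) x}
  mul_mem' := (Pool.Agent.W559.Wr.permGrp e P).mul_mem'
  one_mem' := (Pool.Agent.W559.Wr.permGrp e P).one_mem'
  inv_mem' := (Pool.Agent.W559.Wr.permGrp e P).inv_mem'

/-- Function fields over `k` which are obtained from function fields of smooth projective varieties
and from function fields of quotients of products of curves by products and by quotients of
powers. -/
inductive Obtained (p : ℕ) [Fact p.Prime] (k : Type) [Field k] :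
    (K : Type) → [Field K] → [Algebra k K] → Prop
  /-- The function fields of smooth projective varieties. -/
  | smooth (K : Type) [Field K] [Algebra k K] : HasSmoothProjectiveModel k K → Obtained p k K
  /-- The `E i` are finitely many finitely generated field extensions of `k` of transcendence degree
  one (function fields of curves), `M` is a field extension of `k` generated by linearly disjoint
  copies `e i (E i)` (the function field of the product of the curves), and `τ ≠ 1` is an
  automorphism of `M` over `k` with `τ ^ p = 1` which maps every `e i (E i)` to itself. The field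
  of invariants of `τ` is the function field of the quotient of the product of the curves. -/
  | curves (n : ℕ) (E : Fin n → Type) [∀ i, Field (E i)] [∀ i, Algebra k (E i)]
      [∀ i, Algebra.EssFiniteType k (E i)] (M : Type) [Field M] [Algebra k M]
      (e : ∀ i, E i →ₐ[k] M) (τ : M ≃ₐ[k] M) : (∀ i, Algebra.trdeg k (E i) = 1) →
      Function.Injective (mulMap e) → ⨆ i, (e i).fieldRange = ⊤ → τ ^ p = 1 → τ ≠ 1 →
      (∀ i x, ∃ y, τ (e i x) = e i y) →
      Obtained p k (IntermediateField.fixedField (Subgroup.zpowers τ))
  /-- Products: the compositum of two linearly disjoint fields. -/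
  | product (M : Type) [Field M] [Algebra k M] (F F' : IntermediateField k M) :
      Obtained p k F → Obtained p k F' → F.LinearDisjoint F' → F ⊔ F' = ⊤ → Obtained p k M
  /-- `L` is generated by linearly disjoint copies `e i (K)` of `K` (the function field of a power),
  and `P` is a Sylow `p`-subgroup of the group of all permutations of the factors, or generated by
  a permutation `π` with `π ^ (p ^ 2 * m) = 1` such that `k` contains a primitive `m`-th root of
  unity. The field of invariants is the function field of the quotient of the power by `P`. -/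
  | power (K L : Type) [Field K] [Algebra k K] [Field L] [Algebra k L] (ι : Type) [Fintype ι]
      (e : ι → K →ₐ[k] L) (P : Subgroup (Equiv.Perm ι)) : Obtained p k K →
      Function.Injective (mulMap e) → ⨆ i, (e i).fieldRange = ⊤ →
      ((∃ S : Sylow p (Equiv.Perm ι), P = S) ∨ ∃ (m : ℕ) (ω : k) (π : Equiv.Perm ι), 0 < m ∧
        IsPrimitiveRoot ω m ∧ π ^ (p ^ 2 * m) = 1 ∧ P = Subgroup.zpowers π) →
      Obtained p k (IntermediateField.fixedField (permutations e P))
  /-- Isomorphic fields. -/
  | equiv (K K' : Type) [Field K] [Algebra k K] [Field K'] [Algebra k K'] (φ : K ≃ₐ[k] K') :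
      Obtained p k K → Obtained p k K'

/-- Every integral scheme of finite type over `ℤ` with function field isomorphic to the field `F`
has a regular model which is proper over `ℤ`. -/
def HasRegularModels (F : Type) [Field F] : Prop :=
  ∀ (Y : Scheme.{0}) (_ : IsIntegral Y) (s : Y ⟶ Spec (CommRingCat.of ℤ))
    (_ : LocallyOfFiniteType s) (_ : QuasiCompact s) (_ : Nonempty (Y.functionField ≃+* F)),
    ∃ (X' : Scheme.{0}) (_ : IsIntegral X') (g : X' ⟶ Spec (CommRingCat.of ℤ)),
      IsProper g ∧
      (∀ x : X',
        (((Module.finrank (IsLocalRing.ResidueField (X'.presheaf.stalk x))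
            (IsLocalRing.CotangentSpace (X'.presheaf.stalk x)) : ℕ∞)) : WithBot ℕ∞)
          = ringKrullDim (X'.presheaf.stalk x)) ∧
      Nonempty (X'.functionField ≃+* Y.functionField)

/-- The cyclic permutation groups. -/
theorem qq_cyclic {k : Type} [Field k] {p m : ℕ} (hp : p.Prime) (hpk : (p : k) = 0) {ω : k}
    (hm : 0 < m) (hω : IsPrimitiveRoot ω m) {ι : Type} [Fintype ι] (π : Equiv.Perm ι)
    (hπ : π ^ (p ^ 2 * m) = 1) : Pool.Agent.W559.Wr.QQ k ι (Subgroup.zpowers π) := by
  classical
  let f : ι ≃ Fin (Fintype.card ι) := Fintype.equivFin ι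
  let π' : Equiv.Perm (Fin (Fintype.card ι)) := f.permCongrHom π
  have hπ' : π' ^ (p * p * m) = 1 := by
    change (f.permCongrHom π) ^ (p * p * m) = 1
    rw [← map_pow, ← pow_two, hπ, map_one]
  have h1 := Pool.Agent.W559.Wr.rel' k (Fin (Fintype.card ι)) ι f.symm (Subgroup.zpowers π')
    (Pool.Agent.W559.Wr.cyc' k p m hp hpk (Pool.Agent.W559.Et.cast_ne hm hω) ⟨ω, hω⟩ _ π' hπ')
  have h2 : (Subgroup.zpowers π').map
      (f.symm.permCongrHom : Equiv.Perm (Fin (Fintype.card ι)) ≃* Equiv.Perm ι).toMonoidHom =
      Subgroup.zpowers π := by
    rw [MonoidHom.map_zpowers]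
    congr 1
    ext i
    simp [π']
  rw [h2] at h1
  exact h1

/-- The quotient of a product of curves. -/
theorem spm_curves {p : ℕ} [Fact p.Prime] {k : Type} [Field k] [PerfectField k] [CharP k p]
    {n : ℕ} {E : Fin n → Type} [∀ i, Field (E i)] [∀ i, Algebra k (E i)]
    [∀ i, Algebra.EssFiniteType k (E i)] {M : Type} [Field M] [Algebra k M]
    (e : ∀ i, E i →ₐ[k] M) (τ : M ≃ₐ[k] M) (htr : ∀ i, Algebra.trdeg k (E i) = 1)
    (hdisj : Function.Injective (mulMap e)) (hgen : ⨆ i, (e i).fieldRange = ⊤) (hτ : τ ^ p = 1)
    (hτ1 : τ ≠ 1) (hst : ∀ i x, ∃ y, τ (e i x) = e i y) :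
    HasSmoothProjectiveModel k (IntermediateField.fixedField (Subgroup.zpowers τ)) := by
  classical
  have hp : p.Prime := Fact.out
  have hpk : (p : k) = 0 := CharP.cast_eq_zero k p
  have hτp : ∀ x, τ^[p] x = x := by
    intro x
    have h1 : ∀ (n : ℕ) x, (τ ^ n) x = τ^[n] x := by
      intro n
      induction n with
      | zero => intro x; rfl
      | succ n ih => intro x; rw [pow_succ, Function.iterate_succ_apply, ← ih]; rfl
    rw [← h1, hτ]
    rfl
  have hex : ∃ x, τ x ≠ x := by
    by_contra hcon
    push Not at hcon
    exact hτ1 (AlgEquiv.ext hcon)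
  obtain ⟨W, hW, I, hI, z, J, hM⟩ := Pool.Agent.H920R2.curves_model' e hp hpk
    (fun i => inferInstance) htr hdisj hgen τ hτp hex hst
  have h1 := Pool.Agent.W251.Wr.conv k M (Pool.Agent.H920R2.fixF τ) _ W hW I z J hM
  have hfix : Pool.Agent.H920R2.fixF τ = IntermediateField.fixedField (Subgroup.zpowers τ) := by
    ext x
    rw [Pool.Agent.H920R2.mem_fixF, IntermediateField.mem_fixedField_iff]
    constructor
    · rintro hx _ ⟨m, rfl⟩
      have h2 : τ ∈ MulAction.stabilizer (M ≃ₐ[k] M) x := hx
      exact (MulAction.stabilizer (M ≃ₐ[k] M) x).zpow_mem h2 m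
    · intro hx
      exact hx τ (Subgroup.mem_zpowers τ)
  rw [hfix] at h1
  exact h1

/-- Every field of the class is the function field of a smooth projective variety. -/
theorem spm_obtained {p : ℕ} [Fact p.Prime] {k : Type} [Field k] [PerfectField k] [CharP k p]
    {K : Type} [Field K] [Algebra k K] (h : Obtained p k K) : HasSmoothProjectiveModel k K := by
  have hp : p.Prime := Fact.out
  have hpk : (p : k) = 0 := CharP.cast_eq_zero k p
  induction h with
  | smooth K h => exact h
  | curves n E M e τ htr hdisj hgen hτ hτ1 hst =>
    exact spm_curves e τ htr hdisj hgen hτ hτ1 hst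
  | product M F F' _ _ hd htop ih ih' => exact Pool.Agent.W405.WR.prod k M F F' htop hd ih ih'
  | power K L ι e P _ hdisj hgen hP ih =>
    have hQ : Pool.Agent.W559.Wr.QQ k ι P := by
      rcases hP with ⟨S, rfl⟩ | ⟨m, ω, π, hm, hω, hπ, rfl⟩
      · exact Pool.Agent.W559.Wr.qq_sylow hpk S
      · exact qq_cyclic hp hpk hm hω π hπ
    exact hQ K L e hdisj hgen ih
  | equiv K K' φ _ ih => exact Pool.Agent.W305.Wr.iso k K K' φ ih

/-- Let `k` be a finite field of characteristic `p`, and let `K` be a function field over `k` which
is obtained from function fields of smooth projective varieties and of quotients `(C_1 × ⋯ × C_n)/τ`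
of products of curves over `k` by automorphisms `τ` of order `p` which preserve the factors, by
products, and by quotients of powers by Sylow `p`-subgroups of the symmetric groups and by cyclic
permutation groups of orders dividing `p ^ 2 * m` if `k` contains a primitive `m`-th root of unity.
Then every integral scheme of finite type over `ℤ` with the function field `K` has a regular model
proper over `ℤ`, and `K` is the function field of a smooth projective variety over `k`. -/
theorem result (p : ℕ) [Fact p.Prime] (k : Type) [Field k] [Finite k] [CharP k p]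
    (K : Type) [Field K] [Algebra k K] (hK : Obtained p k K) :
    HasRegularModels K ∧ HasSmoothProjectiveModel k K := by
  have h1 := spm_obtained hK
  refine ⟨?_, h1⟩
  intro Y _ s _ _ hY
  obtain ⟨X', hX', g, h2, h3, ⟨h4⟩⟩ := Pool.Agent.W559.Wr.regular_of_spm h1
  obtain ⟨ε⟩ := hY
  exact ⟨X', hX', g, h2, h3, ⟨h4.trans ε.symm⟩⟩

end Pool.Agent.Results.MP_4d1008_ag.CurveProductQuotients
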