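import Pool.Agent.Y223.INV.Fin

/-!
MP_4d1008_ag: regular models, proper over `ℤ`, of the quotients of regular projective schemes over
rings of integers and over finite fields (of arbitrary dimension and in mixed characteristic) by
involutions with wild fixed points in the residue characteristic `2`.

Let `O` be a domain which is a finite `ℤ`-module, for example the ring of integers of a number field
or a finite field. A regular integral scheme `X`, projective over `O`, is given by homogeneous
coordinates `H 0, ..., H N` in its function field `K`: its charts are the spectra of the rings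
`A j = O[H 0 / H j, ..., H N / H j] ⊆ K`. The involution `σ` of `X` maps linear forms to linear
forms. A `σ`-stable module `I ≠ 0` of linear forms cuts out a closed subscheme `Z` of `X`, the
centre (`Z` is empty if `I` is the module of all linear forms). The local rings of `X` are
considered as subrings of `K`.

The proof is in the starting library (`Pool.Agent.Y223.INV`).
-/

set_option autoImplicit false

open AlgebraicGeometry CategoryTheory

namespace Pool.Agent.Results.MP_4d1008_ag.InvolutionQuotients

section

variable {O K : Type} [CommRing O] [Field K] [Algebra O K]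

/-- The ring `O[H 0 / H j, ..., H N / H j]` of the chart `H j ≠ 0`. -/
def chartRing (O : Type) {K : Type} [CommRing O] [Field K] [Algebra O K] {N : ℕ}
    (H : Fin (N + 1) → K) (j : Fin (N + 1)) : Subring K :=
  (Algebra.adjoin O (Set.range fun l => H l / H j)).toSubring

/-- The local ring at the prime `𝔮` of the subring `A` of the field `K`, as a subring of `K`. -/
noncomputable def localRing (A : Subring K) (𝔮 : Ideal A) [𝔮.IsPrime] : Subring K :=
  (LocalSubring.ofPrime A 𝔮).toSubring

/-- The ideal generated by the linear forms in `I` (divided by the linear form `h`) in `R`. -/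
def centreIdeal (I : Submodule O K) (h : K) (R : Subring K) : Ideal R :=
  Ideal.span {y : R | ∃ n ∈ I, (y : K) = n / h}

variable (σ : K ≃ₐ[O] K)

/-- The point with the local ring `R` is a point of the fixed scheme of `σ`: the ring `R` is stable
under `σ`, which acts trivially on its residue field. -/
def IsFixed (R : Subring K) : Prop :=
  ∀ x : R, ∃ y : R, (y : K) = σ x ∧ ¬ IsUnit (y - x)

/-- `σ = 1 + t δ` on `R`, where the ideal generated by the image of `δ` is the unit ideal, or has a
regular quotient: the fixed scheme is the sum of the divisor of `t` and a regular scheme. -/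
def RegularWild (R : Subring K) : Prop :=
  ∃ (t : R) (δ : R → R), t ≠ 0 ∧ (∀ x : R, σ x = x + t * δ x) ∧
    (Ideal.span (Set.range δ) = ⊤ ∨ IsRegularLocalRing (R ⧸ Ideal.span (Set.range δ)))

/-- `σ = 1 + t δ` on `R`, and `δ ∘ δ = ε δ`, where `ε` and the image of `δ` are in the ideal `I` of
the centre, and `δ` maps `I` to `I ^ 2`, and the leading form of `δ` along the centre has no zeros:
the products of `n + 2` elements of `I` are combinations of the elements `ε a` and `δ(x) a`,
`a ∈ I ^ (n + 1)`, and `δ(y) b`, `y ∈ I`, `b ∈ I ^ n`. -/
def NondegenerateWild (R : Subring K) (I : Ideal R) : Prop :=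
  ∃ (t ε : R) (δ : R → R), t ≠ 0 ∧ (∀ x : R, σ x = x + t * δ x) ∧ (∀ x, δ (δ x) = ε * δ x) ∧
    ε ∈ I ∧ (∀ x, δ x ∈ I) ∧ (∀ x ∈ I, δ x ∈ I ^ 2) ∧
    ∃ n : ℕ, I ^ (n + 2) ≤ (Ideal.span {ε} ⊔ Ideal.span (Set.range δ)) * I ^ (n + 1) ⊔
      Ideal.span (δ '' I) * I ^ n

/-- The centre is empty or regular at the point with the local ring `R`, and the fixed points of
residue characteristic `2` outside the centre, and on the centre, satisfy the respective
condition. -/
def PointCondition (R : Subring K) (I : Ideal R) : Prop :=
  (I = ⊤ ∨ IsRegularLocalRing (R ⧸ I)) ∧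
    (¬ IsUnit (2 : R) → IsFixed σ R →
      (I = ⊤ → RegularWild σ R) ∧ (I ≠ ⊤ → NondegenerateWild σ R I))

/-- The field of invariants of `σ`. -/
def invariants : Subfield K :=
  RingHom.eqLocusField (σ : K →+* K) (RingHom.id K)

end

theorem result :
    ∀ (O K : Type) [CommRing O] [IsDomain O] [Module.Finite ℤ O] [Field K] [Algebra O K],
      Function.Injective (algebraMap O K) →
      -- the regular projective scheme with the function field `K`
      ∀ (N : ℕ) (H : Fin (N + 1) → K), (∀ j, H j ≠ 0) →
      (∀ j, IsRegularRing (chartRing O H j)) →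
      Subfield.closure (chartRing O H 0 : Set K) = ⊤ →
      -- the involution
      ∀ (σ : K ≃ₐ[O] K), (∀ x, σ (σ x) = x) → (∃ x, σ x ≠ x) →
      (∀ j, σ (H j) ∈ Submodule.span O (Set.range H)) →
      -- the centre
      ∀ (I : Submodule O K), I ≤ Submodule.span O (Set.range H) → I ≠ ⊥ → (∀ x ∈ I, σ x ∈ I) →
      (∀ j (𝔮 : Ideal (chartRing O H j)) [𝔮.IsPrime],
        PointCondition σ (localRing (chartRing O H j) 𝔮)
          (centreIdeal I (H j) (localRing (chartRing O H j) 𝔮))) →
      -- every scheme birational to the quotient has a regular proper model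
      ∀ (Y : Scheme.{0}) (_ : IsIntegral Y) (s : Y ⟶ Spec (CommRingCat.of ℤ)),
      LocallyOfFiniteType s → QuasiCompact s →
      Nonempty (Y.functionField ≃+* invariants σ) →
      ∃ (X' : Scheme.{0}) (_ : IsIntegral X') (g : X' ⟶ Spec (CommRingCat.of ℤ)),
        IsProper g ∧
        (∀ x : X',
          (((Module.finrank (IsLocalRing.ResidueField (X'.presheaf.stalk x))
              (IsLocalRing.CotangentSpace (X'.presheaf.stalk x)) : ℕ∞)) : WithBot ℕ∞)
            = ringKrullDim (X'.presheaf.stalk x)) ∧
        Nonempty (X'.functionField ≃+* Y.functionField) := by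
  intro O K _ _ _ _ _ hO N H hH hreg hfrac σ hσ hσ1 hσH I hI hI0 hσI hpt Y hY s _ _ ⟨i⟩
  exact Pool.Agent.Y223.INV.inv_final hO H hH hreg 0 hfrac σ hσ hσ1 hσH I hI hI0 hσI hpt
    (invariants σ) (fun x => Iff.rfl) i

end Pool.Agent.Results.MP_4d1008_ag.InvolutionQuotients
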